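import Mathlib

/-!
# Certificates for quadratic inequalities between four points near a line

Four points are given by the Gram matrix of their projections and by the three gaps between
consecutive heights.  A leaf of a certificate tree is a list of multipliers of the S-procedure.
-/

namespace MP453786

/-- Certificate trees: a leaf holds multipliers, a node splits the box of gaps. -/
inductive Tr : Type
  | lf (k n01 n02 n03 n12 n13 n23 m0 m1 m2 m3 : Nat) : Tr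
  | nd (ax : Nat) (mid : Int) (l r : Tr) : Tr

/-- Coefficients of a linear functional in the six quantities `D`, and its target. -/
structure Ob where
  t01 : Int
  t02 : Int
  t03 : Int
  t12 : Int
  t13 : Int
  t23 : Int
  b : Int

def psd2 (a b c : Int) : Bool := decide (0 < a) && decide (b * b ≤ a * c)

def psd3 (a b c d e f : Int) : Bool :=
  decide (0 < a) && psd2 (a * d - b * b) (a * e - b * c) (a * f - c * c)

def psd4 (a b c d e f g h i j : Int) : Bool :=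
  decide (0 < a) && psd3 (a * e - b * b) (a * f - b * c) (a * g - b * d) (a * h - c * c)
    (a * i - c * d) (a * j - d * d)

def PP (w01 w02 w03 w12 w13 w23 x y z : Int) : Int :=
  w01 * (x * x) + w02 * ((x + y) * (x + y)) + w03 * ((x + y + z) * (x + y + z))
    + w12 * (y * y) + w13 * ((y + z) * (y + z)) + w23 * (z * z)

def vtx (w01 w02 w03 w12 w13 w23 K corr x y z : Int) : Bool :=
  decide (corr ≤ 4 * (PP w01 w02 w03 w12 w13 w23 x y z + K))

def boxOK (w01 w02 w03 w12 w13 w23 K l1 h1 l2 h2 l3 h3 corr : Int) : Bool :=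
  vtx w01 w02 w03 w12 w13 w23 K corr l1 l2 l3 && vtx w01 w02 w03 w12 w13 w23 K corr l1 l2 h3 &&
  vtx w01 w02 w03 w12 w13 w23 K corr l1 h2 l3 && vtx w01 w02 w03 w12 w13 w23 K corr l1 h2 h3 &&
  vtx w01 w02 w03 w12 w13 w23 K corr h1 l2 l3 && vtx w01 w02 w03 w12 w13 w23 K corr h1 l2 h3 &&
  vtx w01 w02 w03 w12 w13 w23 K corr h1 h2 l3 && vtx w01 w02 w03 w12 w13 w23 K corr h1 h2 h3

def corrOf (w01 w02 w03 w12 w13 w23 l1 h1 l2 h2 l3 h3 : Int) : Int :=
  max 0 (w01 + w02 + w03) * ((h1 - l1) * (h1 - l1))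
    + max 0 (w02 + w03 + w12 + w13) * ((h2 - l2) * (h2 - l2))
    + max 0 (w03 + w13 + w23) * ((h3 - l3) * (h3 - l3))

def leafW (w01 w02 w03 w12 w13 w23 m0 m1 m2 m3 b l1 h1 l2 h2 l3 h3 : Int) : Bool :=
  psd4 (m0 + w01 + w02 + w03) (-w01) (-w02) (-w03) (m1 + w01 + w12 + w13) (-w12) (-w13)
    (m2 + w02 + w12 + w23) (-w23) (m3 + w03 + w13 + w23) &&
  boxOK w01 w02 w03 w12 w13 w23
    (-(1048576 * (m0 + m1 + m2 + m3 + 4 * (w01 + w02 + w03 + w12 + w13 + w23) + b)))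
    l1 h1 l2 h2 l3 h3 (corrOf w01 w02 w03 w12 w13 w23 l1 h1 l2 h2 l3 h3)

def chk (o : Nat → Ob) : Tr → Int → Int → Int → Int → Int → Int → Bool
  | .lf k n01 n02 n03 n12 n13 n23 m0 m1 m2 m3, l1, h1, l2, h2, l3, h3 =>
    leafW ((o k).t01 - n01) ((o k).t02 - n02) ((o k).t03 - n03) ((o k).t12 - n12)
      ((o k).t13 - n13) ((o k).t23 - n23) m0 m1 m2 m3 (o k).b l1 h1 l2 h2 l3 h3
  | .nd 0 mid L R, l1, h1, l2, h2, l3, h3 =>
    chk o L l1 mid l2 h2 l3 h3 && chk o R mid h1 l2 h2 l3 h3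
  | .nd 1 mid L R, l1, h1, l2, h2, l3, h3 =>
    chk o L l1 h1 l2 mid l3 h3 && chk o R l1 h1 mid h2 l3 h3
  | .nd _ mid L R, l1, h1, l2, h2, l3, h3 =>
    chk o L l1 h1 l2 h2 l3 mid && chk o R l1 h1 l2 h2 mid h3

/-! ## Soundness -/

theorem r2 {a b c g11 g12 g22 : ℝ} (ha : 0 < a) (hbc : b * b ≤ a * c)
    (hg : ∀ u v : ℝ, 0 ≤ u ^ 2 * g11 + 2 * u * v * g12 + v ^ 2 * g22) :
    0 ≤ a * g11 + 2 * b * g12 + c * g22 := by
  have h1 := hg a b
  have h2 : 0 ≤ g22 := by simpa using hg 0 1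
  have h3 : 0 ≤ (a * c - b * b) * g22 := mul_nonneg (by linarith) h2
  have h4 : a * (a * g11 + 2 * b * g12 + c * g22)
      = (a ^ 2 * g11 + 2 * a * b * g12 + b ^ 2 * g22) + (a * c - b * b) * g22 := by ring
  have h5 : 0 ≤ a * (a * g11 + 2 * b * g12 + c * g22) := by rw [h4]; linarith
  exact nonneg_of_mul_nonneg_right h5 ha

theorem r3 {a b c d e f g11 g12 g13 g22 g23 g33 : ℝ} (ha : 0 < a)
    (h2 : 0 < a * d - b * b)
    (h3 : (a * e - b * c) * (a * e - b * c) ≤ (a * d - b * b) * (a * f - c * c))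
    (hg : ∀ u v w : ℝ, 0 ≤ u ^ 2 * g11 + v ^ 2 * g22 + w ^ 2 * g33
      + 2 * (u * v * g12 + u * w * g13 + v * w * g23)) :
    0 ≤ a * g11 + d * g22 + f * g33 + 2 * (b * g12 + c * g13 + e * g23) := by
  have h4 := hg a b c
  have h5 := r2 (g11 := g22) (g12 := g23) (g22 := g33) h2 h3
    (fun u v => by have := hg 0 u v; nlinarith [this])
  have h6 : a * (a * g11 + d * g22 + f * g33 + 2 * (b * g12 + c * g13 + e * g23))
      = (a ^ 2 * g11 + b ^ 2 * g22 + c ^ 2 * g33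
        + 2 * (a * b * g12 + a * c * g13 + b * c * g23))
      + ((a * d - b * b) * g22 + 2 * (a * e - b * c) * g23 + (a * f - c * c) * g33) := by ring
  have h7 : 0 ≤ a * (a * g11 + d * g22 + f * g33 + 2 * (b * g12 + c * g13 + e * g23)) := by
    rw [h6]; linarith
  exact nonneg_of_mul_nonneg_right h7 ha

/-- The Gram matrix of four vectors is positive semidefinite. -/
def Gram (a00 a01 a02 a03 a11 a12 a13 a22 a23 a33 : ℝ) : Prop :=
  ∀ c0 c1 c2 c3 : ℝ, 0 ≤ c0 ^ 2 * a00 + c1 ^ 2 * a11 + c2 ^ 2 * a22 + c3 ^ 2 * a33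
    + 2 * (c0 * c1 * a01 + c0 * c2 * a02 + c0 * c3 * a03 + c1 * c2 * a12 + c1 * c3 * a13
      + c2 * c3 * a23)

theorem psd4_sound {a b c d e f g h i j : Int} (H : psd4 a b c d e f g h i j = true)
    {a00 a01 a02 a03 a11 a12 a13 a22 a23 a33 : ℝ}
    (hg : Gram a00 a01 a02 a03 a11 a12 a13 a22 a23 a33) :
    0 ≤ (a : ℝ) * a00 + e * a11 + h * a22 + j * a33
      + 2 * (b * a01 + c * a02 + d * a03 + f * a12 + g * a13 + i * a23) := by
  simp only [psd4, psd3, psd2, Bool.and_eq_true, decide_eq_true_eq] at H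
  obtain ⟨H1, H2, H3, H4⟩ := H
  have K1 : (0 : ℝ) < a := by exact_mod_cast H1
  have K2 : (0 : ℝ) < (a : ℝ) * e - b * b := by exact_mod_cast H2
  have K3 : (0 : ℝ) < ((a : ℝ) * e - b * b) * (a * h - c * c)
      - (a * f - b * c) * (a * f - b * c) := by exact_mod_cast H3
  have K4 : (((a : ℝ) * e - b * b) * (a * i - c * d) - (a * f - b * c) * (a * g - b * d))
      * (((a : ℝ) * e - b * b) * (a * i - c * d) - (a * f - b * c) * (a * g - b * d))
      ≤ (((a : ℝ) * e - b * b) * (a * h - c * c) - (a * f - b * c) * (a * f - b * c))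
        * (((a : ℝ) * e - b * b) * (a * j - d * d) - (a * g - b * d) * (a * g - b * d)) := by
    exact_mod_cast H4
  have h5 := r3 (g11 := a11) (g12 := a12) (g13 := a13) (g22 := a22) (g23 := a23) (g33 := a33)
    K2 K3 K4 (fun u v w => by have := hg 0 u v w; nlinarith [this])
  have h4 := hg a b c d
  have h6 : (a : ℝ) * ((a : ℝ) * a00 + e * a11 + h * a22 + j * a33
      + 2 * (b * a01 + c * a02 + d * a03 + f * a12 + g * a13 + i * a23))
      = ((a : ℝ) ^ 2 * a00 + b ^ 2 * a11 + c ^ 2 * a22 + d ^ 2 * a33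
        + 2 * (a * b * a01 + a * c * a02 + a * d * a03 + b * c * a12 + b * d * a13
          + c * d * a23))
      + (((a : ℝ) * e - b * b) * a11 + (a * h - c * c) * a22 + (a * j - d * d) * a33
        + 2 * ((a * f - b * c) * a12 + (a * g - b * d) * a13 + (a * i - c * d) * a23)) := by
    ring
  have h7 : 0 ≤ (a : ℝ) * ((a : ℝ) * a00 + e * a11 + h * a22 + j * a33
      + 2 * (b * a01 + c * a02 + d * a03 + f * a12 + g * a13 + i * a23)) := by
    rw [h6]; linarith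
  exact nonneg_of_mul_nonneg_right h7 K1

/-- One-dimensional interpolation for a concave quadratic. -/
theorem conc1 {A B C l h x m : ℝ} (hA : A ≤ 0) (h1 : l ≤ x) (h2 : x ≤ h)
    (hl : m ≤ A * l ^ 2 + B * l + C) (hh : m ≤ A * h ^ 2 + B * h + C) :
    m ≤ A * x ^ 2 + B * x + C := by
  rcases eq_or_lt_of_le (le_trans h1 h2) with e0 | e0
  · have : x = l := le_antisymm (by linarith) h1
    rw [this]; exact hl
  · have h3 : 0 < h - l := by linarith
    have h4 : (h - l) * (A * x ^ 2 + B * x + C - m)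
        = (h - x) * (A * l ^ 2 + B * l + C - m) + (x - l) * (A * h ^ 2 + B * h + C - m)
          + (-A) * ((x - l) * (h - x) * (h - l)) := by ring
    have h5 : 0 ≤ (h - x) * (A * l ^ 2 + B * l + C - m) := mul_nonneg (by linarith) (by linarith)
    have h6 : 0 ≤ (x - l) * (A * h ^ 2 + B * h + C - m) := mul_nonneg (by linarith) (by linarith)
    have h7 : 0 ≤ (-A) * ((x - l) * (h - x) * (h - l)) :=
      mul_nonneg (by linarith) (mul_nonneg (mul_nonneg (by linarith) (by linarith)) h3.le)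
    have h8 : 0 ≤ (h - l) * (A * x ^ 2 + B * x + C - m) := by rw [h4]; linarith
    have := nonneg_of_mul_nonneg_right h8 h3
    linarith

/-- Real version of the quadratic polynomial in the gaps. -/
def RP (w01 w02 w03 w12 w13 w23 x y z : ℝ) : ℝ :=
  w01 * (x * x) + w02 * ((x + y) * (x + y)) + w03 * ((x + y + z) * (x + y + z))
    + w12 * (y * y) + w13 * ((y + z) * (y + z)) + w23 * (z * z)

theorem box_bound {w01 w02 w03 w12 w13 w23 K l1 h1 l2 h2 l3 h3 x y z r1 r2 r3 : ℝ}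
    (x1 : l1 ≤ x) (x2 : x ≤ h1) (y1 : l2 ≤ y) (y2 : y ≤ h2) (z1 : l3 ≤ z) (z2 : z ≤ h3)
    (p1 : 0 ≤ r1) (p2 : 0 ≤ r2) (p3 : 0 ≤ r3)
    (q1 : w01 + w02 + w03 ≤ r1) (q2 : w02 + w03 + w12 + w13 ≤ r2) (q3 : w03 + w13 + w23 ≤ r3)
    {c : ℝ} (hc : c = r1 * ((h1 - l1) * (h1 - l1)) + r2 * ((h2 - l2) * (h2 - l2))
      + r3 * ((h3 - l3) * (h3 - l3)))
    (v1 : c ≤ 4 * (RP w01 w02 w03 w12 w13 w23 l1 l2 l3 + K))
    (v2 : c ≤ 4 * (RP w01 w02 w03 w12 w13 w23 l1 l2 h3 + K))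
    (v3 : c ≤ 4 * (RP w01 w02 w03 w12 w13 w23 l1 h2 l3 + K))
    (v4 : c ≤ 4 * (RP w01 w02 w03 w12 w13 w23 l1 h2 h3 + K))
    (v5 : c ≤ 4 * (RP w01 w02 w03 w12 w13 w23 h1 l2 l3 + K))
    (v6 : c ≤ 4 * (RP w01 w02 w03 w12 w13 w23 h1 l2 h3 + K))
    (v7 : c ≤ 4 * (RP w01 w02 w03 w12 w13 w23 h1 h2 l3 + K))
    (v8 : c ≤ 4 * (RP w01 w02 w03 w12 w13 w23 h1 h2 h3 + K)) :
    0 ≤ RP w01 w02 w03 w12 w13 w23 x y z + K := by
  -- the concave minorant
  let G : ℝ → ℝ → ℝ → ℝ := fun x y z => RP w01 w02 w03 w12 w13 w23 x y z + K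
    - r1 * ((x - l1) * (x - h1)) - r2 * ((y - l2) * (y - h2)) - r3 * ((z - l3) * (z - h3))
  have sx : ∀ y z : ℝ, c ≤ 4 * G l1 y z → c ≤ 4 * G h1 y z → c ≤ 4 * G x y z := by
    intro y z e1 e2
    have := conc1 (A := 4 * (w01 + w02 + w03 - r1))
      (B := 4 * (2 * w02 * y + 2 * w03 * (y + z) + r1 * (l1 + h1)))
      (C := 4 * (w02 * y ^ 2 + w03 * (y + z) ^ 2 + w12 * y ^ 2 + w13 * (y + z) ^ 2
        + w23 * z ^ 2 + K - r1 * l1 * h1 - r2 * ((y - l2) * (y - h2))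
        - r3 * ((z - l3) * (z - h3)))) (m := c) (by linarith) x1 x2
      (le_of_le_of_eq e1 (by simp only [G, RP]; ring))
      (le_of_le_of_eq e2 (by simp only [G, RP]; ring))
    exact le_of_le_of_eq this (by simp only [G, RP]; ring)
  have sy : ∀ z : ℝ, c ≤ 4 * G x l2 z → c ≤ 4 * G x h2 z → c ≤ 4 * G x y z := by
    intro z e1 e2
    have := conc1 (A := 4 * (w02 + w03 + w12 + w13 - r2))
      (B := 4 * (2 * w02 * x + 2 * w03 * (x + z) + 2 * w13 * z + r2 * (l2 + h2)))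
      (C := 4 * (w01 * x ^ 2 + w02 * x ^ 2 + w03 * (x + z) ^ 2 + w13 * z ^ 2
        + w23 * z ^ 2 + K - r2 * l2 * h2 - r1 * ((x - l1) * (x - h1))
        - r3 * ((z - l3) * (z - h3)))) (m := c) (by linarith) y1 y2
      (le_of_le_of_eq e1 (by simp only [G, RP]; ring))
      (le_of_le_of_eq e2 (by simp only [G, RP]; ring))
    exact le_of_le_of_eq this (by simp only [G, RP]; ring)
  have sz : c ≤ 4 * G x y l3 → c ≤ 4 * G x y h3 → c ≤ 4 * G x y z := by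
    intro e1 e2
    have := conc1 (A := 4 * (w03 + w13 + w23 - r3))
      (B := 4 * (2 * w03 * (x + y) + 2 * w13 * y + r3 * (l3 + h3)))
      (C := 4 * (w01 * x ^ 2 + w02 * (x + y) ^ 2 + w03 * (x + y) ^ 2 + w12 * y ^ 2
        + w13 * y ^ 2 + K - r3 * l3 * h3 - r1 * ((x - l1) * (x - h1))
        - r2 * ((y - l2) * (y - h2)))) (m := c) (by linarith) z1 z2
      (le_of_le_of_eq e1 (by simp only [G, RP]; ring))
      (le_of_le_of_eq e2 (by simp only [G, RP]; ring))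
    exact le_of_le_of_eq this (by simp only [G, RP]; ring)
  have hG : c ≤ 4 * G x y z := by
    refine sz (sy l3 (sx _ _ ?_ ?_) (sx _ _ ?_ ?_)) (sy h3 (sx _ _ ?_ ?_) (sx _ _ ?_ ?_)) <;>
    simp only [G, sub_self, mul_zero, zero_mul, sub_zero] <;> assumption
  have k1 : 0 ≤ r1 * ((2 * x - l1 - h1) ^ 2) := by positivity
  have k2 : 0 ≤ r2 * ((2 * y - l2 - h2) ^ 2) := by positivity
  have k3 : 0 ≤ r3 * ((2 * z - l3 - h3) ^ 2) := by positivity
  have e : 4 * (RP w01 w02 w03 w12 w13 w23 x y z + K) = 4 * G x y z - c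
      + r1 * ((2 * x - l1 - h1) ^ 2) + r2 * ((2 * y - l2 - h2) ^ 2)
      + r3 * ((2 * z - l3 - h3) ^ 2) := by
    rw [hc]; simp only [G]; ring
  linarith

/-- The data of four points seen from a line: Gram matrix of the projections, the gaps
`x, y, z` between consecutive heights; all projections are in the unit ball and all mutual
distances are at least `2`. -/
structure Conf (a00 a01 a02 a03 a11 a12 a13 a22 a23 a33 x y z : ℝ) : Prop where
  gram : Gram a00 a01 a02 a03 a11 a12 a13 a22 a23 a33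
  u0 : a00 ≤ 1
  u1 : a11 ≤ 1
  u2 : a22 ≤ 1
  u3 : a33 ≤ 1
  d01 : 0 ≤ a00 + a11 - 2 * a01 + x ^ 2 - 4
  d02 : 0 ≤ a00 + a22 - 2 * a02 + (x + y) ^ 2 - 4
  d03 : 0 ≤ a00 + a33 - 2 * a03 + (x + y + z) ^ 2 - 4
  d12 : 0 ≤ a11 + a22 - 2 * a12 + y ^ 2 - 4
  d13 : 0 ≤ a11 + a33 - 2 * a13 + (y + z) ^ 2 - 4
  d23 : 0 ≤ a22 + a33 - 2 * a23 + z ^ 2 - 4

/-- The value of the functional with coefficients `t`. -/
def val (t01 t02 t03 t12 t13 t23 a00 a01 a02 a03 a11 a12 a13 a22 a23 a33 x y z : ℝ) : ℝ :=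
  t01 * (a00 + a11 - 2 * a01 + x ^ 2 - 4) + t02 * (a00 + a22 - 2 * a02 + (x + y) ^ 2 - 4)
    + t03 * (a00 + a33 - 2 * a03 + (x + y + z) ^ 2 - 4)
    + t12 * (a11 + a22 - 2 * a12 + y ^ 2 - 4) + t13 * (a11 + a33 - 2 * a13 + (y + z) ^ 2 - 4)
    + t23 * (a22 + a33 - 2 * a23 + z ^ 2 - 4)

theorem leaf_sound {a00 a01 a02 a03 a11 a12 a13 a22 a23 a33 x y z : ℝ}
    (C : Conf a00 a01 a02 a03 a11 a12 a13 a22 a23 a33 x y z)
    {w01 w02 w03 w12 w13 w23 b l1 h1 l2 h2 l3 h3 : Int} {m0 m1 m2 m3 : Nat}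
    (H : leafW w01 w02 w03 w12 w13 w23 m0 m1 m2 m3 b l1 h1 l2 h2 l3 h3 = true)
    (x1 : (l1 : ℝ) ≤ 1024 * x) (x2 : 1024 * x ≤ h1) (y1 : (l2 : ℝ) ≤ 1024 * y)
    (y2 : 1024 * y ≤ h2) (z1 : (l3 : ℝ) ≤ 1024 * z) (z2 : 1024 * z ≤ h3) :
    (b : ℝ) ≤ val w01 w02 w03 w12 w13 w23 a00 a01 a02 a03 a11 a12 a13 a22 a23 a33 x y z := by
  simp only [leafW, Bool.and_eq_true] at H
  obtain ⟨H1, H2⟩ := H
  have P := psd4_sound H1 C.gram
  push_cast at P
  simp only [boxOK, vtx, PP, corrOf, Bool.and_eq_true] at H2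
  obtain ⟨⟨⟨⟨⟨⟨⟨V1, V2⟩, V3⟩, V4⟩, V5⟩, V6⟩, V7⟩, V8⟩ := H2
  have B := box_bound (w01 := w01) (w02 := w02) (w03 := w03) (w12 := w12) (w13 := w13)
    (w23 := w23)
    (K := -(1048576 * ((m0 : ℝ) + m1 + m2 + m3 + 4 * (w01 + w02 + w03 + w12 + w13 + w23) + b)))
    (r1 := max 0 ((w01 : ℝ) + w02 + w03)) (r2 := max 0 ((w02 : ℝ) + w03 + w12 + w13))
    (r3 := max 0 ((w03 : ℝ) + w13 + w23)) x1 x2 y1 y2 z1 z2
    (le_max_left _ _) (le_max_left _ _) (le_max_left _ _)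
    (le_max_right _ _) (le_max_right _ _) (le_max_right _ _) rfl
    (by simp only [RP]; exact_mod_cast of_decide_eq_true V1) (by simp only [RP]; exact_mod_cast of_decide_eq_true V2)
    (by simp only [RP]; exact_mod_cast of_decide_eq_true V3) (by simp only [RP]; exact_mod_cast of_decide_eq_true V4)
    (by simp only [RP]; exact_mod_cast of_decide_eq_true V5) (by simp only [RP]; exact_mod_cast of_decide_eq_true V6)
    (by simp only [RP]; exact_mod_cast of_decide_eq_true V7) (by simp only [RP]; exact_mod_cast of_decide_eq_true V8)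
  have M0 : (0 : ℝ) ≤ m0 * (1 - a00) := mul_nonneg (Nat.cast_nonneg _) (by linarith [C.u0])
  have M1 : (0 : ℝ) ≤ m1 * (1 - a11) := mul_nonneg (Nat.cast_nonneg _) (by linarith [C.u1])
  have M2 : (0 : ℝ) ≤ m2 * (1 - a22) := mul_nonneg (Nat.cast_nonneg _) (by linarith [C.u2])
  have M3 : (0 : ℝ) ≤ m3 * (1 - a33) := mul_nonneg (Nat.cast_nonneg _) (by linarith [C.u3])
  simp only [RP] at B
  simp only [val]
  nlinarith [P, B, M0, M1, M2, M3]

theorem leaf_sound' {a00 a01 a02 a03 a11 a12 a13 a22 a23 a33 x y z : ℝ}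
    (C : Conf a00 a01 a02 a03 a11 a12 a13 a22 a23 a33 x y z)
    {t01 t02 t03 t12 t13 t23 b l1 h1 l2 h2 l3 h3 : Int}
    {n01 n02 n03 n12 n13 n23 m0 m1 m2 m3 : Nat}
    (H : leafW (t01 - n01) (t02 - n02) (t03 - n03) (t12 - n12) (t13 - n13) (t23 - n23)
      m0 m1 m2 m3 b l1 h1 l2 h2 l3 h3 = true)
    (x1 : (l1 : ℝ) ≤ 1024 * x) (x2 : 1024 * x ≤ h1) (y1 : (l2 : ℝ) ≤ 1024 * y)
    (y2 : 1024 * y ≤ h2) (z1 : (l3 : ℝ) ≤ 1024 * z) (z2 : 1024 * z ≤ h3) :
    (b : ℝ) ≤ val t01 t02 t03 t12 t13 t23 a00 a01 a02 a03 a11 a12 a13 a22 a23 a33 x y z := by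
  have h := leaf_sound C H x1 x2 y1 y2 z1 z2
  push_cast at h
  have N1 := mul_nonneg (Nat.cast_nonneg (α := ℝ) n01) C.d01
  have N2 := mul_nonneg (Nat.cast_nonneg (α := ℝ) n02) C.d02
  have N3 := mul_nonneg (Nat.cast_nonneg (α := ℝ) n03) C.d03
  have N4 := mul_nonneg (Nat.cast_nonneg (α := ℝ) n12) C.d12
  have N5 := mul_nonneg (Nat.cast_nonneg (α := ℝ) n13) C.d13
  have N6 := mul_nonneg (Nat.cast_nonneg (α := ℝ) n23) C.d23
  simp only [val] at h ⊢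
  linarith

theorem chk_sound {o : Nat → Ob} {a00 a01 a02 a03 a11 a12 a13 a22 a23 a33 x y z : ℝ}
    (C : Conf a00 a01 a02 a03 a11 a12 a13 a22 a23 a33 x y z) (T : Tr) :
    ∀ (l1 h1 l2 h2 l3 h3 : Int), chk o T l1 h1 l2 h2 l3 h3 = true →
    (l1 : ℝ) ≤ 1024 * x → 1024 * x ≤ h1 → (l2 : ℝ) ≤ 1024 * y → 1024 * y ≤ h2 →
    (l3 : ℝ) ≤ 1024 * z → 1024 * z ≤ h3 →
    ∃ k, ((o k).b : ℝ) ≤ val (o k).t01 (o k).t02 (o k).t03 (o k).t12 (o k).t13 (o k).t23
      a00 a01 a02 a03 a11 a12 a13 a22 a23 a33 x y z := by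
  induction T with
  | lf k n01 n02 n03 n12 n13 n23 m0 m1 m2 m3 =>
    intro l1 h1 l2 h2 l3 h3 H x1 x2 y1 y2 z1 z2
    exact ⟨k, leaf_sound' C H x1 x2 y1 y2 z1 z2⟩
  | nd ax mid L R ihL ihR =>
    intro l1 h1 l2 h2 l3 h3 H x1 x2 y1 y2 z1 z2
    match ax, H with
    | 0, H =>
      simp only [chk, Bool.and_eq_true] at H
      rcases le_total (1024 * x) mid with h | h
      · exact ihL _ _ _ _ _ _ H.1 x1 h y1 y2 z1 z2
      · exact ihR _ _ _ _ _ _ H.2 h x2 y1 y2 z1 z2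
    | 1, H =>
      simp only [chk, Bool.and_eq_true] at H
      rcases le_total (1024 * y) mid with h | h
      · exact ihL _ _ _ _ _ _ H.1 x1 x2 y1 h z1 z2
      · exact ihR _ _ _ _ _ _ H.2 x1 x2 h y2 z1 z2
    | (n + 2), H =>
      simp only [chk, Bool.and_eq_true] at H
      rcases le_total (1024 * z) mid with h | h
      · exact ihL _ _ _ _ _ _ H.1 x1 x2 y1 y2 z1 h
      · exact ihR _ _ _ _ _ _ H.2 x1 x2 y1 y2 h z2

end MP453786
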