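import Pool.Agent.Work.MP_453786_co.Trees

/-!
# The two edge lemmas and the bounds for all gaps
-/

namespace MP453786

section
variable {a00 a01 a02 a03 a11 a12 a13 a22 a23 a33 x y z : ℝ}

/-- Order `A, B, C, D` with a small first gap: `F > 8 D_AB`. -/
theorem edgeI (C : Conf a00 a01 a02 a03 a11 a12 a13 a22 a23 a33 x y z) (hx : 0 < x)
    (hy : 0 ≤ y) (hz : 0 ≤ z) (hx8 : x ≤ 1 / 8) (k1 : -x ≤ a02 + a12) (k2 : a02 + a03 ≤ z)
    (k3 : -(x * z) ≤ a02 + a03 + a12 + a13) :
    0 < val (-8000) 100 1000 (-1000) (-100) 0 a00 a01 a02 a03 a11 a12 a13 a22 a23 a33 x y z := by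
  have hy2 : 13 / 10 ≤ y := by
    by_contra hcon
    push Not at hcon
    have e1 := C.d12
    have e2 := C.d02
    have e3 := C.u0
    have e4 := C.u1
    have e5 := C.u2
    nlinarith
  have T : 0 ≤ a00 + 2 * a01 + a11 := by have := C.gram 1 1 0 0; linarith
  have R : 0 ≤ a22 + 2 * a23 + a33 := by have := C.gram 0 0 1 1; linarith
  have q1 : 0 ≤ x * (y - 13 / 10) := mul_nonneg hx.le (by linarith)
  have q2 : 0 ≤ z * (y - 13 / 10) := mul_nonneg hz (by linarith)
  have q3 : 0 ≤ x * (1 / 8 - x) := mul_nonneg hx.le (by linarith)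
  have q4 : 0 ≤ x * z := mul_nonneg hx.le hz
  have q5 : 0 ≤ z ^ 2 := sq_nonneg z
  have e1 := C.u0
  have e2 := C.u1
  have e3 := C.u2
  have e4 := C.u3
  have e5 := C.d23
  have e6 := C.d01
  simp only [val]
  nlinarith

/-- Order `A, C, D, B` with a small first gap: `F ≤ 8 D_AB`. -/
theorem edgeII (C : Conf a00 a01 a02 a03 a11 a12 a13 a22 a23 a33 x y z) (hx : 0 ≤ x)
    (hy : 0 ≤ y) (hz : 0 ≤ z) (hx8 : x ≤ 3 / 16) (k1 : -x ≤ a02 + a12) (k2 : a02 + a03 ≤ z)
    (k3 : a02 + a03 + a12 + a13 ≤ x * z) :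
    0 ≤ val (-100) (-1000) 8000 0 1000 100 a00 a01 a02 a03 a11 a12 a13 a22 a23 a33 x y z := by
  have hy2 : 9 / 7 - x / 4 ≤ y := by
    by_contra hcon
    push Not at hcon
    have e1 := C.d12
    have e2 := C.d02
    have e3 := C.u0
    have e4 := C.u1
    have e5 := C.u2
    nlinarith
  have T : 0 ≤ a00 + 2 * a01 + a11 := by have := C.gram 1 1 0 0; linarith
  have R : 0 ≤ a22 + 2 * a23 + a33 := by have := C.gram 0 0 1 1; linarith
  have q1 : 0 ≤ x * (y - (9 / 7 - x / 4)) := mul_nonneg hx (by linarith)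
  have q2 : 0 ≤ z * (y - (9 / 7 - x / 4)) := mul_nonneg hz (by linarith)
  have q4 : 0 ≤ x * z := mul_nonneg hx hz
  have q5 : 0 ≤ z ^ 2 := sq_nonneg z
  have q6 : 0 ≤ z * (3 / 16 - x) := mul_nonneg hz (by linarith)
  have e1 := C.u0
  have e2 := C.u1
  have e3 := C.u2
  have e4 := C.u3
  have e5 := C.d23
  have e6 := C.d01
  have e7 := C.d12
  simp only [val]
  nlinarith


/-! ## Truncation of large gaps -/

theorem trunc_aux {q h h' : ℝ} (hq : 0 ≤ q) (hh : 0 ≤ h) (hD : 0 ≤ q + h ^ 2 - 4)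
    (H : 2 ≤ h' ∨ h ≤ h') : 0 ≤ q + h' ^ 2 - 4 := by
  rcases H with H | H
  · nlinarith
  · nlinarith

theorem Conf.trunc (C : Conf a00 a01 a02 a03 a11 a12 a13 a22 a23 a33 x y z) {x' y' z' : ℝ}
    (hx : 0 ≤ x) (hy : 0 ≤ y) (hz : 0 ≤ z)
    (h01 : 2 ≤ x' ∨ x ≤ x') (h02 : 2 ≤ x' + y' ∨ x + y ≤ x' + y')
    (h03 : 2 ≤ x' + y' + z' ∨ x + y + z ≤ x' + y' + z')
    (h12 : 2 ≤ y' ∨ y ≤ y') (h13 : 2 ≤ y' + z' ∨ y + z ≤ y' + z') (h23 : 2 ≤ z' ∨ z ≤ z') :
    Conf a00 a01 a02 a03 a11 a12 a13 a22 a23 a33 x' y' z' := by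
  have g01 : 0 ≤ a00 + a11 - 2 * a01 := by have := C.gram 1 (-1) 0 0; linarith
  have g02 : 0 ≤ a00 + a22 - 2 * a02 := by have := C.gram 1 0 (-1) 0; linarith
  have g03 : 0 ≤ a00 + a33 - 2 * a03 := by have := C.gram 1 0 0 (-1); linarith
  have g12 : 0 ≤ a11 + a22 - 2 * a12 := by have := C.gram 0 1 (-1) 0; linarith
  have g13 : 0 ≤ a11 + a33 - 2 * a13 := by have := C.gram 0 1 0 (-1); linarith
  have g23 : 0 ≤ a22 + a33 - 2 * a23 := by have := C.gram 0 0 1 (-1); linarith
  exact ⟨C.gram, C.u0, C.u1, C.u2, C.u3, trunc_aux g01 hx C.d01 h01,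
    trunc_aux g02 (by linarith) C.d02 h02, trunc_aux g03 (by linarith) C.d03 h03,
    trunc_aux g12 hy C.d12 h12, trunc_aux g13 (by linarith) C.d13 h13,
    trunc_aux g23 hz C.d23 h23⟩

/-- The bound for the order `A, C, D, B` extends from gaps at most `2` to all gaps. -/
theorem extendII {k b : ℝ} (hk : 1100 ≤ k)
    (H : ∀ x y z : ℝ, 0 ≤ x → x ≤ 2 → 0 ≤ y → y ≤ 2 → 0 ≤ z → z ≤ 2 →
      Conf a00 a01 a02 a03 a11 a12 a13 a22 a23 a33 x y z →
      b ≤ val (-100) (-1000) k 0 1000 100 a00 a01 a02 a03 a11 a12 a13 a22 a23 a33 x y z)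
    (hx : 0 ≤ x) (hy : 0 ≤ y) (hz : 0 ≤ z)
    (C : Conf a00 a01 a02 a03 a11 a12 a13 a22 a23 a33 x y z) :
    b ≤ val (-100) (-1000) k 0 1000 100 a00 a01 a02 a03 a11 a12 a13 a22 a23 a33 x y z := by
  have S1 : ∀ x y z : ℝ, 0 ≤ x → x ≤ 2 → 0 ≤ y → y ≤ 2 → 0 ≤ z →
      Conf a00 a01 a02 a03 a11 a12 a13 a22 a23 a33 x y z →
      b ≤ val (-100) (-1000) k 0 1000 100 a00 a01 a02 a03 a11 a12 a13 a22 a23 a33 x y z := by
    intro x y z hx hx2 hy hy2 hz C
    rcases le_total z 2 with h | h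
    · exact H x y z hx hx2 hy hy2 hz h C
    · have C' := C.trunc (x' := x) (y' := y) (z' := 2) hx hy hz (Or.inr le_rfl)
        (Or.inr le_rfl) (Or.inl (by linarith)) (Or.inr le_rfl) (Or.inl (by linarith))
        (Or.inl le_rfl)
      have e := H x y 2 hx hx2 hy hy2 (by norm_num) le_rfl C'
      refine e.trans ?_
      simp only [val]
      have f1 : (2 : ℝ) ^ 2 ≤ z ^ 2 := by nlinarith
      have f2 : (y + 2) ^ 2 ≤ (y + z) ^ 2 := by nlinarith
      have f3 : k * (x + y + 2) ^ 2 ≤ k * (x + y + z) ^ 2 :=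
        mul_le_mul_of_nonneg_left (by nlinarith) (by linarith)
      linarith
  have S2 : ∀ x y z : ℝ, 0 ≤ x → 0 ≤ y → y ≤ 2 → 0 ≤ z →
      Conf a00 a01 a02 a03 a11 a12 a13 a22 a23 a33 x y z →
      b ≤ val (-100) (-1000) k 0 1000 100 a00 a01 a02 a03 a11 a12 a13 a22 a23 a33 x y z := by
    intro x y z hx hy hy2 hz C
    rcases le_total x 2 with h | h
    · exact S1 x y z hx h hy hy2 hz C
    · have C' := C.trunc (x' := 2) (y' := y) (z' := z) hx hy hz (Or.inl le_rfl)
        (Or.inl (by linarith)) (Or.inl (by linarith)) (Or.inr le_rfl) (Or.inr le_rfl)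
        (Or.inr le_rfl)
      have e := S1 2 y z (by norm_num) le_rfl hy hy2 hz C'
      refine e.trans ?_
      simp only [val]
      have f0 : 0 ≤ (k - 1100) * ((x - 2) * (x + 2 + 2 * y + 2 * z)) :=
        mul_nonneg (by linarith) (mul_nonneg (by linarith) (by linarith))
      have f1 : 0 ≤ (x - 2) * y := mul_nonneg (by linarith) hy
      have f2 : 0 ≤ (x - 2) * z := mul_nonneg (by linarith) hz
      nlinarith
  rcases le_total y 2 with h | h
  · exact S2 x y z hx hy h hz C
  · have C' := C.trunc (x' := x + (y - 2)) (y' := 2) (z' := z) hx hy hz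
      (Or.inr (by linarith)) (Or.inl (by linarith)) (Or.inl (by linarith))
      (Or.inl le_rfl) (Or.inl (by linarith)) (Or.inr le_rfl)
    have e := S2 (x + (y - 2)) 2 z (by linarith) (by norm_num) le_rfl hz C'
    refine e.trans ?_
    simp only [val]
    have f1 : x ^ 2 ≤ (x + (y - 2)) ^ 2 := by nlinarith
    have f2 : (2 + z) ^ 2 ≤ (y + z) ^ 2 := by nlinarith
    have f3 : x + (y - 2) + 2 = x + y := by ring
    rw [f3]
    linarith

/-- All bounds for the order `A, C, D, B`. -/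
theorem boundII_of_tree {k b : Int} {T : Tr}
    (h : chk (oK k b) T 0 2048 0 2048 0 2048 = true) (hk : (1100 : ℝ) ≤ k)
    (hx : 0 ≤ x) (hy : 0 ≤ y) (hz : 0 ≤ z)
    (C : Conf a00 a01 a02 a03 a11 a12 a13 a22 a23 a33 x y z) :
    (b : ℝ) ≤ val (-100) (-1000) k 0 1000 100 a00 a01 a02 a03 a11 a12 a13 a22 a23 a33 x y z := by
  refine extendII hk ?_ hx hy hz C
  intro x y z hx hx2 hy hy2 hz hz2 C
  obtain ⟨n, hn⟩ := chk_sound C T _ _ _ _ _ _ h (by push_cast; linarith)
    (by push_cast; linarith) (by push_cast; linarith) (by push_cast; linarith)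
    (by push_cast; linarith) (by push_cast; linarith)
  simp only [oK] at hn
  push_cast at hn
  exact hn

theorem boundII_8 (hx : 0 ≤ x) (hy : 0 ≤ y) (hz : 0 ≤ z)
    (C : Conf a00 a01 a02 a03 a11 a12 a13 a22 a23 a33 x y z)
    (k1 : -x ≤ a02 + a12) (k2 : a02 + a03 ≤ z) (k3 : a02 + a03 + a12 + a13 ≤ x * z) :
    0 ≤ val (-100) (-1000) 8000 0 1000 100 a00 a01 a02 a03 a11 a12 a13 a22 a23 a33 x y z := by
  rcases le_total x (3 / 16) with hs | hs
  · exact edgeII C hx hy hz hs k1 k2 k3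
  · -- replace by the truncation, where the certificate applies; the first gap stays at least 3/16
    have H : ∀ x y z : ℝ, 0 ≤ x → x ≤ 2 → 0 ≤ y → y ≤ 2 → 0 ≤ z → z ≤ 2 → 3 / 16 ≤ x →
        Conf a00 a01 a02 a03 a11 a12 a13 a22 a23 a33 x y z →
        0 ≤ val (-100) (-1000) 8000 0 1000 100 a00 a01 a02 a03 a11 a12 a13 a22 a23 a33 x y z := by
      intro x y z hx hx2 hy hy2 hz hz2 hs C
      obtain ⟨n, hn⟩ := chk_sound C tree8 _ _ _ _ _ _ chk8 (by push_cast; linarith)
        (by push_cast; linarith) (by push_cast; linarith) (by push_cast; linarith)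
        (by push_cast; linarith) (by push_cast; linarith)
      simp only [oK] at hn
      push_cast at hn
      exact hn
    have S1 : ∀ x y z : ℝ, 0 ≤ x → x ≤ 2 → 0 ≤ y → y ≤ 2 → 0 ≤ z → 3 / 16 ≤ x →
        Conf a00 a01 a02 a03 a11 a12 a13 a22 a23 a33 x y z →
        0 ≤ val (-100) (-1000) 8000 0 1000 100 a00 a01 a02 a03 a11 a12 a13 a22 a23 a33 x y z := by
      intro x y z hx hx2 hy hy2 hz hs C
      rcases le_total z 2 with h | h
      · exact H x y z hx hx2 hy hy2 hz h hs C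
      · have C' := C.trunc (x' := x) (y' := y) (z' := 2) hx hy hz (Or.inr le_rfl)
          (Or.inr le_rfl) (Or.inl (by linarith)) (Or.inr le_rfl) (Or.inl (by linarith))
          (Or.inl le_rfl)
        have e := H x y 2 hx hx2 hy hy2 (by norm_num) le_rfl hs C'
        refine e.trans ?_
        simp only [val]
        have f1 : (2 : ℝ) ^ 2 ≤ z ^ 2 := by nlinarith
        have f2 : (y + 2) ^ 2 ≤ (y + z) ^ 2 := by nlinarith
        have f3 : (x + y + 2) ^ 2 ≤ (x + y + z) ^ 2 := by nlinarith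
        linarith
    have S2 : ∀ x y z : ℝ, 0 ≤ x → 0 ≤ y → y ≤ 2 → 0 ≤ z → 3 / 16 ≤ x →
        Conf a00 a01 a02 a03 a11 a12 a13 a22 a23 a33 x y z →
        0 ≤ val (-100) (-1000) 8000 0 1000 100 a00 a01 a02 a03 a11 a12 a13 a22 a23 a33 x y z := by
      intro x y z hx hy hy2 hz hs C
      rcases le_total x 2 with h | h
      · exact S1 x y z hx h hy hy2 hz hs C
      · have C' := C.trunc (x' := 2) (y' := y) (z' := z) hx hy hz (Or.inl le_rfl)
          (Or.inl (by linarith)) (Or.inl (by linarith)) (Or.inr le_rfl) (Or.inr le_rfl)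
          (Or.inr le_rfl)
        have e := S1 2 y z (by norm_num) le_rfl hy hy2 hz (by norm_num) C'
        refine e.trans ?_
        simp only [val]
        have f1 : 0 ≤ (x - 2) * y := mul_nonneg (by linarith) hy
        have f2 : 0 ≤ (x - 2) * z := mul_nonneg (by linarith) hz
        nlinarith
    rcases le_total y 2 with h | h
    · exact S2 x y z hx hy h hz hs C
    · have C' := C.trunc (x' := x + (y - 2)) (y' := 2) (z' := z) hx hy hz
        (Or.inr (by linarith)) (Or.inl (by linarith)) (Or.inl (by linarith))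
        (Or.inl le_rfl) (Or.inl (by linarith)) (Or.inr le_rfl)
      have e := S2 (x + (y - 2)) 2 z (by linarith) (by norm_num) le_rfl hz (by linarith) C'
      refine e.trans ?_
      simp only [val]
      have f1 : x ^ 2 ≤ (x + (y - 2)) ^ 2 := by nlinarith
      have f2 : (2 + z) ^ 2 ≤ (y + z) ^ 2 := by nlinarith
      have f3 : x + (y - 2) + 2 = x + y := by ring
      rw [f3]
      linarith

/-- For the order `A, B, C, D` one of the five functionals exceeds its target. -/
theorem boundI (hx : 0 < x) (hy : 0 ≤ y) (hz : 0 ≤ z)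
    (C : Conf a00 a01 a02 a03 a11 a12 a13 a22 a23 a33 x y z)
    (k1 : -x ≤ a02 + a12) (k2 : a02 + a03 ≤ z) (k3 : -(x * z) ≤ a02 + a03 + a12 + a13) :
    0 < val (-8000) 100 1000 (-1000) (-100) 0 a00 a01 a02 a03 a11 a12 a13 a22 a23 a33 x y z ∨
    431 ≤ val (-3500) 100 1000 (-1000) (-100) 0 a00 a01 a02 a03 a11 a12 a13 a22 a23 a33 x y z ∨
    1341 ≤ val (-2200) 100 1000 (-1000) (-100) 0 a00 a01 a02 a03 a11 a12 a13 a22 a23 a33 x y z ∨
    2541 ≤ val (-1500) 100 1000 (-1000) (-100) 0 a00 a01 a02 a03 a11 a12 a13 a22 a23 a33 x y z ∨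
    3721 ≤ val (-1100) 100 1000 (-1000) (-100) 0 a00 a01 a02 a03 a11 a12 a13 a22 a23 a33 x y z := by
  rcases le_total x (1 / 8) with hs | hs
  · exact Or.inl (edgeI C hx hy hz hs k1 k2 k3)
  -- truncate the last two gaps
  obtain ⟨y', hy0, hy2, hyy, hy3⟩ : ∃ y' : ℝ, 0 ≤ y' ∧ y' ≤ 2 ∧ y' ≤ y ∧ (2 ≤ y' ∨ y ≤ y') := by
    rcases le_total y 2 with h | h
    · exact ⟨y, hy, h, le_rfl, Or.inr le_rfl⟩
    · exact ⟨2, by norm_num, le_rfl, h, Or.inl le_rfl⟩
  obtain ⟨z', hz0, hz2, hzz, hz3⟩ : ∃ z' : ℝ, 0 ≤ z' ∧ z' ≤ 2 ∧ z' ≤ z ∧ (2 ≤ z' ∨ z ≤ z') := by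
    rcases le_total z 2 with h | h
    · exact ⟨z, hz, h, le_rfl, Or.inr le_rfl⟩
    · exact ⟨2, by norm_num, le_rfl, h, Or.inl le_rfl⟩
  -- monotonicity in the last two gaps
  have mono : ∀ (t x : ℝ), 0 ≤ x →
      val t 100 1000 (-1000) (-100) 0 a00 a01 a02 a03 a11 a12 a13 a22 a23 a33 x y' z' ≤
      val t 100 1000 (-1000) (-100) 0 a00 a01 a02 a03 a11 a12 a13 a22 a23 a33 x y z := by
    intro t x hx
    simp only [val]
    have m1 : 0 ≤ x * (y - y') := mul_nonneg hx (by linarith)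
    have m2 : 0 ≤ x * (z - z') := mul_nonneg hx (by linarith)
    have m3 : 0 ≤ (y - y') * z := mul_nonneg (by linarith) hz
    have m4 : 0 ≤ y' * (z - z') := mul_nonneg hy0 (by linarith)
    have m5 : 0 ≤ (z - z') * (z + z') := mul_nonneg (by linarith) (by linarith)
    nlinarith
  rcases le_total x 2 with hx2 | hx2
  · have C' := C.trunc (x' := x) (y' := y') (z' := z') hx.le hy hz (Or.inr le_rfl)
      (by rcases hy3 with h | h <;> [left; right] <;> linarith)
      (by rcases hy3 with h | h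
          · left; linarith
          · rcases hz3 with h' | h' <;> [left; right] <;> linarith)
      hy3
      (by rcases hy3 with h | h
          · left; linarith
          · rcases hz3 with h' | h' <;> [left; right] <;> linarith)
      hz3
    obtain ⟨n, hn⟩ := chk_sound C' treeI _ _ _ _ _ _ chkI (by push_cast; linarith)
      (by push_cast; linarith) (by push_cast; linarith) (by push_cast; linarith)
      (by push_cast; linarith) (by push_cast; linarith)
    match n, hn with
    | 0, hn =>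
      left
      simp only [oI] at hn
      push_cast at hn
      have := mono (-8000) x hx.le
      linarith
    | 1, hn =>
      right; left
      simp only [oI] at hn
      push_cast at hn
      have := mono (-3500) x hx.le
      linarith
    | 2, hn =>
      right; right; left
      simp only [oI] at hn
      push_cast at hn
      have := mono (-2200) x hx.le
      linarith
    | 3, hn =>
      right; right; right; left
      simp only [oI] at hn
      push_cast at hn
      have := mono (-1500) x hx.le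
      linarith
    | (n + 4), hn =>
      right; right; right; right
      simp only [oI] at hn
      push_cast at hn
      have := mono (-1100) x hx.le
      linarith
  · have C' := C.trunc (x' := 2) (y' := y') (z' := z') hx.le hy hz (Or.inl le_rfl)
      (Or.inl (by linarith)) (Or.inl (by linarith))
      hy3
      (by rcases hy3 with h | h
          · left; linarith
          · rcases hz3 with h' | h' <;> [left; right] <;> linarith)
      hz3
    obtain ⟨n, hn⟩ := chk_sound C' treeIs _ _ _ _ _ _ chkS (by push_cast; linarith)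
      (by push_cast; linarith) (by push_cast; linarith) (by push_cast; linarith)
      (by push_cast; linarith) (by push_cast; linarith)
    right; right; right; right
    simp only [oS] at hn
    push_cast at hn
    have h1 := mono (-1100) 2 (by norm_num)
    have h2 : val (-1100) 100 1000 (-1000) (-100) 0 a00 a01 a02 a03 a11 a12 a13 a22 a23 a33 2 y z
        ≤ val (-1100) 100 1000 (-1000) (-100) 0
          a00 a01 a02 a03 a11 a12 a13 a22 a23 a33 x y z := by
      simp only [val]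
      have f1 : 0 ≤ (x - 2) * y := mul_nonneg (by linarith) hy
      have f2 : 0 ≤ (x - 2) * z := mul_nonneg (by linarith) hz
      nlinarith
    linarith

end

end MP453786
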