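import Pool.Agent.Work.MP_453786_co.Edge

/-!
# From lines and balls to Gram matrices and gaps
-/

namespace MP453786

open Metric

section
variable {E : Type*} [NormedAddCommGroup E] [InnerProductSpace ℝ E]

/-- Parameter of the foot of the perpendicular from `X` to the line through `p` along `v`. -/
noncomputable def foot (p v X : E) : ℝ := inner ℝ (X - p) v / ‖v‖ ^ 2

/-- The projection of `X - p` along `v`. -/
noncomputable def proj (p v X : E) : E := X - p - foot p v X • v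

theorem proj_orth {v : E} (hv : v ≠ 0) (p X : E) : inner ℝ (proj p v X) v = 0 := by
  have h : ‖v‖ ^ 2 ≠ 0 := by positivity
  unfold proj foot
  rw [inner_sub_left, inner_smul_left, real_inner_self_eq_norm_sq]
  simp only [conj_trivial]
  field_simp
  ring

theorem sq_add_of_orth {a b : E} (h : inner ℝ a b = 0) : ‖a + b‖ ^ 2 = ‖a‖ ^ 2 + ‖b‖ ^ 2 := by
  have := norm_add_sq_eq_norm_sq_add_norm_sq_real h
  nlinarith

theorem dist_sq {v : E} (hv : v ≠ 0) (p X Y : E) :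
    ‖X - Y‖ ^ 2 = ‖proj p v X - proj p v Y‖ ^ 2 + ((foot p v Y - foot p v X) * ‖v‖) ^ 2 := by
  have e : X - Y = (proj p v X - proj p v Y) + (foot p v X - foot p v Y) • v := by
    unfold proj
    rw [sub_smul]
    abel
  have o : inner ℝ (proj p v X - proj p v Y) ((foot p v X - foot p v Y) • v) = 0 := by
    rw [inner_smul_right, inner_sub_left, proj_orth hv, proj_orth hv]
    simp
  rw [e, sq_add_of_orth o, norm_smul, mul_pow, mul_pow, Real.norm_eq_abs, sq_abs]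
  ring

theorem param_sq {v : E} (hv : v ≠ 0) (p X : E) (t : ℝ) :
    ‖p + t • v - X‖ ^ 2 = ‖proj p v X‖ ^ 2 + ((foot p v X - t) * ‖v‖) ^ 2 := by
  have e : p + t • v - X = -(proj p v X) + (t - foot p v X) • v := by
    unfold proj
    rw [sub_smul]
    abel
  have o : inner ℝ (-(proj p v X)) ((t - foot p v X) • v) = 0 := by
    rw [inner_smul_right, inner_neg_left, proj_orth hv]
    simp
  rw [e, sq_add_of_orth o, norm_smul, mul_pow, mul_pow, Real.norm_eq_abs, sq_abs, norm_neg]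
  ring

/-- The set `I_X` of parameters `t` for which `p + t v` lies in the closed unit ball centred
at `X`. -/
def params (p v X : E) : Set ℝ := {t | p + t • v ∈ closedBall X 1}

theorem mem_params {p v X : E} {t : ℝ} : t ∈ params p v X ↔ ‖p + t • v - X‖ ≤ 1 := by
  simp [params, dist_eq_norm]

theorem proj_le {v : E} (hv : v ≠ 0) {p X : E} (h : (params p v X).Nonempty) :
    ‖proj p v X‖ ≤ 1 := by
  obtain ⟨t, ht⟩ := h
  rw [mem_params] at ht
  have e := param_sq hv p X t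
  have h1 : ‖p + t • v - X‖ ^ 2 ≤ 1 := by
    have := norm_nonneg (p + t • v - X)
    nlinarith
  have h2 : ‖proj p v X‖ ^ 2 ≤ 1 := by nlinarith [sq_nonneg ((foot p v X - t) * ‖v‖)]
  have := norm_nonneg (proj p v X)
  nlinarith

theorem foot_mem {v : E} (hv : v ≠ 0) {p X : E} (h : (params p v X).Nonempty) :
    foot p v X ∈ params p v X := by
  rw [mem_params]
  have e := param_sq hv p X (foot p v X)
  rw [sub_self, zero_mul] at e
  have h1 := proj_le hv h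
  have h2 := norm_nonneg (proj p v X)
  have h3 := norm_nonneg (p + foot p v X • v - X)
  have h4 : ‖p + foot p v X • v - X‖ ^ 2 ≤ 1 := by rw [e]; nlinarith
  nlinarith

theorem eq_foot_of_norm_one {v : E} (hv : v ≠ 0) {p X : E} (h : ‖proj p v X‖ = 1) {t : ℝ}
    (ht : t ∈ params p v X) : t = foot p v X := by
  rw [mem_params] at ht
  have e := param_sq hv p X t
  have h1 : ‖p + t • v - X‖ ^ 2 ≤ 1 := by
    have := norm_nonneg (p + t • v - X)
    nlinarith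
  rw [h] at e
  have h2 : ((foot p v X - t) * ‖v‖) ^ 2 ≤ 0 := by nlinarith
  have h3 : (foot p v X - t) * ‖v‖ = 0 := by
    have := sq_nonneg ((foot p v X - t) * ‖v‖)
    exact pow_eq_zero_iff (two_ne_zero) |>.1 (le_antisymm h2 this)
  rcases mul_eq_zero.1 h3 with h4 | h4
  · linarith
  · exact absurd (norm_eq_zero.1 h4) hv

/-- `max I_{X k} ≤ min I_{X (k + 1)}` for `k = 0, 1, 2`. -/
def Ordered (p v : E) (X : Fin 4 → E) : Prop :=
  ∀ k : Fin 3, ∀ s ∈ params p v (X k.castSucc), ∀ t ∈ params p v (X k.succ), s ≤ t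

theorem inner_sub_sq (a b : E) : ‖a - b‖ ^ 2 = inner ℝ a a + inner ℝ b b - 2 * inner ℝ a b := by
  rw [norm_sub_sq_real, real_inner_self_eq_norm_sq, real_inner_self_eq_norm_sq]
  ring

theorem small_sum {a b : E} (ha : ‖a‖ ≤ 1) (hb : ‖b‖ ≤ 1) {h : ℝ} (hh : 0 ≤ h)
    (hd : 4 ≤ ‖a - b‖ ^ 2 + h ^ 2) : ‖a + b‖ ≤ h := by
  have e : ‖a + b‖ ^ 2 + ‖a - b‖ ^ 2 = 2 * (‖a‖ ^ 2 + ‖b‖ ^ 2) := by
    have := parallelogram_law_with_norm ℝ a b
    nlinarith
  have h1 : ‖a‖ ^ 2 ≤ 1 := by have := norm_nonneg a; nlinarith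
  have h2 : ‖b‖ ^ 2 ≤ 1 := by have := norm_nonneg b; nlinarith
  have h3 : ‖a + b‖ ^ 2 ≤ h ^ 2 := by linarith
  exact (pow_le_pow_iff_left₀ (norm_nonneg _) hh two_ne_zero).1 h3

theorem inner_self_le_one {a : E} (ha : ‖a‖ ≤ 1) : inner ℝ a a ≤ 1 := by
  rw [real_inner_self_eq_norm_sq]
  have := norm_nonneg a
  nlinarith

theorem four_le_sq {r : ℝ} (hr : 2 ≤ r) : 4 ≤ r ^ 2 := by nlinarith

theorem conf_of_ordered {p v : E} (hv : v ≠ 0) {X0 X1 X2 X3 : E}
    (n0 : (params p v X0).Nonempty) (n1 : (params p v X1).Nonempty)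
    (n2 : (params p v X2).Nonempty) (n3 : (params p v X3).Nonempty)
    (o1 : ∀ s ∈ params p v X0, ∀ t ∈ params p v X1, s ≤ t)
    (o2 : ∀ s ∈ params p v X1, ∀ t ∈ params p v X2, s ≤ t)
    (o3 : ∀ s ∈ params p v X2, ∀ t ∈ params p v X3, s ≤ t)
    (d01 : 2 ≤ ‖X0 - X1‖) (d02 : 2 ≤ ‖X0 - X2‖) (d03 : 2 ≤ ‖X0 - X3‖)
    (d12 : 2 ≤ ‖X1 - X2‖) (d13 : 2 ≤ ‖X1 - X3‖) (d23 : 2 ≤ ‖X2 - X3‖) :
    ∃ a00 a01 a02 a03 a11 a12 a13 a22 a23 a33 x y z : ℝ, 0 ≤ x ∧ 0 ≤ y ∧ 0 ≤ z ∧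
      Conf a00 a01 a02 a03 a11 a12 a13 a22 a23 a33 x y z ∧
      -x ≤ a02 + a12 ∧ a02 + a03 ≤ z ∧ |a02 + a03 + a12 + a13| ≤ x * z ∧
      (x = 0 → ∀ s ∈ params p v X0, ∀ t ∈ params p v X1, s = t) ∧
      ∀ t01 t02 t03 t12 t13 t23 : ℝ,
        val t01 t02 t03 t12 t13 t23 a00 a01 a02 a03 a11 a12 a13 a22 a23 a33 x y z =
        t01 * (‖X0 - X1‖ ^ 2 - 4) + t02 * (‖X0 - X2‖ ^ 2 - 4) + t03 * (‖X0 - X3‖ ^ 2 - 4)
        + t12 * (‖X1 - X2‖ ^ 2 - 4) + t13 * (‖X1 - X3‖ ^ 2 - 4) + t23 * (‖X2 - X3‖ ^ 2 - 4) := by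
  set P0 := proj p v X0 with hP0
  set P1 := proj p v X1 with hP1
  set P2 := proj p v X2 with hP2
  set P3 := proj p v X3 with hP3
  have u0 : ‖P0‖ ≤ 1 := proj_le hv n0
  have u1 : ‖P1‖ ≤ 1 := proj_le hv n1
  have u2 : ‖P2‖ ≤ 1 := proj_le hv n2
  have u3 : ‖P3‖ ≤ 1 := proj_le hv n3
  have f1 := o1 _ (foot_mem hv n0) _ (foot_mem hv n1)
  have f2 := o2 _ (foot_mem hv n1) _ (foot_mem hv n2)
  have f3 := o3 _ (foot_mem hv n2) _ (foot_mem hv n3)
  have hx : 0 ≤ (foot p v X1 - foot p v X0) * ‖v‖ := mul_nonneg (by linarith) (norm_nonneg _)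
  have hy : 0 ≤ (foot p v X2 - foot p v X1) * ‖v‖ := mul_nonneg (by linarith) (norm_nonneg _)
  have hz : 0 ≤ (foot p v X3 - foot p v X2) * ‖v‖ := mul_nonneg (by linarith) (norm_nonneg _)
  set x := (foot p v X1 - foot p v X0) * ‖v‖ with hxd
  set y := (foot p v X2 - foot p v X1) * ‖v‖ with hyd
  set z := (foot p v X3 - foot p v X2) * ‖v‖ with hzd
  have e01 : ‖X0 - X1‖ ^ 2 = ‖P0 - P1‖ ^ 2 + x ^ 2 := dist_sq hv p X0 X1
  have e12 : ‖X1 - X2‖ ^ 2 = ‖P1 - P2‖ ^ 2 + y ^ 2 := dist_sq hv p X1 X2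
  have e23 : ‖X2 - X3‖ ^ 2 = ‖P2 - P3‖ ^ 2 + z ^ 2 := dist_sq hv p X2 X3
  have e02 : ‖X0 - X2‖ ^ 2 = ‖P0 - P2‖ ^ 2 + (x + y) ^ 2 := by
    rw [dist_sq hv p X0 X2]; congr 1; rw [hxd, hyd]; ring
  have e13 : ‖X1 - X3‖ ^ 2 = ‖P1 - P3‖ ^ 2 + (y + z) ^ 2 := by
    rw [dist_sq hv p X1 X3]; congr 1; rw [hyd, hzd]; ring
  have e03 : ‖X0 - X3‖ ^ 2 = ‖P0 - P3‖ ^ 2 + (x + y + z) ^ 2 := by
    rw [dist_sq hv p X0 X3]; congr 1; rw [hxd, hyd, hzd]; ring
  have s01 := four_le_sq d01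
  have s02 := four_le_sq d02
  have s03 := four_le_sq d03
  have s12 := four_le_sq d12
  have s13 := four_le_sq d13
  have s23 := four_le_sq d23
  rw [e01] at s01
  rw [e02] at s02
  rw [e03] at s03
  rw [e12] at s12
  rw [e13] at s13
  rw [e23] at s23
  have T : ‖P0 + P1‖ ≤ x := small_sum u0 u1 hx s01
  have R : ‖P2 + P3‖ ≤ z := small_sum u2 u3 hz s23
  have i1 : |inner ℝ P2 (P0 + P1)| ≤ x := by
    refine (abs_real_inner_le_norm _ _).trans ?_
    calc ‖P2‖ * ‖P0 + P1‖ ≤ 1 * x := mul_le_mul u2 T (norm_nonneg _) zero_le_one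
      _ = x := one_mul x
  have i2 : |inner ℝ P0 (P2 + P3)| ≤ z := by
    refine (abs_real_inner_le_norm _ _).trans ?_
    calc ‖P0‖ * ‖P2 + P3‖ ≤ 1 * z := mul_le_mul u0 R (norm_nonneg _) zero_le_one
      _ = z := one_mul z
  have i3 : |inner ℝ (P0 + P1) (P2 + P3)| ≤ x * z :=
    (abs_real_inner_le_norm _ _).trans (mul_le_mul T R (norm_nonneg _) hx)
  refine ⟨inner ℝ P0 P0, inner ℝ P0 P1, inner ℝ P0 P2, inner ℝ P0 P3, inner ℝ P1 P1,
    inner ℝ P1 P2, inner ℝ P1 P3, inner ℝ P2 P2, inner ℝ P2 P3, inner ℝ P3 P3, x, y, z,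
    hx, hy, hz, ⟨?_, inner_self_le_one u0, inner_self_le_one u1,
    inner_self_le_one u2, inner_self_le_one u3, ?_, ?_, ?_, ?_, ?_, ?_⟩, ?_, ?_, ?_,
    ?_, ?_⟩
  · intro c0 c1 c2 c3
    have h : 0 ≤ inner ℝ (c0 • P0 + c1 • P1 + c2 • P2 + c3 • P3)
        (c0 • P0 + c1 • P1 + c2 • P2 + c3 • P3) := real_inner_self_nonneg
    simp only [inner_add_left, inner_add_right, inner_smul_left, inner_smul_right,
      conj_trivial] at h
    rw [real_inner_comm P0 P1, real_inner_comm P0 P2, real_inner_comm P0 P3,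
      real_inner_comm P1 P2, real_inner_comm P1 P3, real_inner_comm P2 P3] at h
    exact le_of_le_of_eq h (by ring)
  · rw [← inner_sub_sq]; linarith
  · rw [← inner_sub_sq]; linarith
  · rw [← inner_sub_sq]; linarith
  · rw [← inner_sub_sq]; linarith
  · rw [← inner_sub_sq]; linarith
  · rw [← inner_sub_sq]; linarith
  · have := (abs_le.1 i1).1
    rw [inner_add_right, real_inner_comm P0 P2, real_inner_comm P1 P2] at this
    exact this
  · have := (abs_le.1 i2).2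
    rw [inner_add_right] at this
    exact this
  · rw [inner_add_right, inner_add_left, inner_add_left] at i3
    have e : inner ℝ P0 P2 + inner ℝ P0 P3 + inner ℝ P1 P2 + inner ℝ P1 P3
      = inner ℝ P0 P2 + inner ℝ P1 P2 + (inner ℝ P0 P3 + inner ℝ P1 P3) := by ring
    rw [e]
    exact i3
  · intro hx0 s hs t ht
    rw [hx0] at s01
    have h2 : 2 ≤ ‖P0 - P1‖ := by
      have h7 : (2 : ℝ) ^ 2 ≤ ‖P0 - P1‖ ^ 2 := by linarith
      exact (pow_le_pow_iff_left₀ (by norm_num) (norm_nonneg _) two_ne_zero).1 h7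
    have h3 := norm_sub_le P0 P1
    have h4 : ‖P0‖ = 1 := by linarith
    have h5 : ‖P1‖ = 1 := by linarith
    rw [eq_foot_of_norm_one hv h4 hs, eq_foot_of_norm_one hv h5 ht]
    have hn : ‖v‖ ≠ 0 := norm_ne_zero_iff.2 hv
    have : (foot p v X1 - foot p v X0) * ‖v‖ = 0 := hxd.symm.trans hx0
    rcases mul_eq_zero.1 this with h6 | h6
    · linarith
    · exact absurd h6 hn
  · intro t01 t02 t03 t12 t13 t23
    rw [e01, e02, e03, e12, e13, e23]
    simp only [inner_sub_sq, val]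

/-- The open unit balls about `X` and `Y` are disjoint only if the centres are at distance at
least `2`. -/
theorem two_le_of_disjoint {X Y : E}
    (h : Disjoint (interior (closedBall X 1)) (interior (closedBall Y 1))) : 2 ≤ ‖X - Y‖ := by
  by_contra hcon
  push Not at hcon
  have hX : (1 / 2 : ℝ) • (X + Y) ∈ interior (closedBall X 1) := by
    refine ball_subset_interior_closedBall ?_
    rw [mem_ball, dist_eq_norm]
    have : (1 / 2 : ℝ) • (X + Y) - X = (-(1 / 2) : ℝ) • (X - Y) := by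
      module
    rw [this, norm_smul, Real.norm_eq_abs]
    norm_num
    linarith
  have hY : (1 / 2 : ℝ) • (X + Y) ∈ interior (closedBall Y 1) := by
    refine ball_subset_interior_closedBall ?_
    rw [mem_ball, dist_eq_norm]
    have : (1 / 2 : ℝ) • (X + Y) - Y = ((1 / 2) : ℝ) • (X - Y) := by
      module
    rw [this, norm_smul, Real.norm_eq_abs]
    norm_num
    linarith
  exact Set.disjoint_left.1 h hX hY

end

end MP453786
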